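import Mathlib

set_option autoImplicit false

namespace Pool.Agent.Lib_helper70.Chains

/-- `F` is a family of chains of the Boolean lattice `2^[n]` such that every `r`-term chain (a chain
consisting of exactly `r` sets) is contained in some member of `F`. -/
def IsChainCover (n r : ℕ) (F : Finset (Finset (Finset (Fin n)))) : Prop :=
  (∀ C ∈ F, IsChain (· ⊆ ·) (C : Set (Finset (Fin n)))) ∧
    ∀ D : Finset (Finset (Fin n)), D.card = r → IsChain (· ⊆ ·) (D : Set (Finset (Fin n))) →
      ∃ C ∈ F, D ⊆ C

/-- `N(n,r)`: the least size of a family of chains of `2^[n]` covering all `r`-term chains. -/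
noncomputable def coverNumber (n r : ℕ) : ℕ :=
  sInf {k | ∃ F : Finset (Finset (Finset (Fin n))), IsChainCover n r F ∧ F.card = k}

/-- `(a 0, ..., a r)` is an admissible gap vector: the entries sum to `n` and all entries except
possibly the first and the last are positive. -/
def IsGapVector (n r : ℕ) (a : Fin (r + 1) → ℕ) : Prop :=
  ∑ i, a i = n ∧ ∀ i, i ≠ 0 → i ≠ Fin.last r → 1 ≤ a i

/-- `M(n,r)`: the largest multinomial coefficient `n! / (a 0)! ... (a r)!` over all admissible gap
vectors. -/
noncomputable def maxMultinomial (n r : ℕ) : ℕ :=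
  sSup {k | ∃ a : Fin (r + 1) → ℕ, IsGapVector n r a ∧ Nat.multinomial Finset.univ a = k}

end Pool.Agent.Lib_helper70.Chains
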