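import Mathlib

set_option autoImplicit false

namespace Pool.Agent.Lib_helper70.Chains

open Finset

variable {α : Type} [DecidableEq α]

/-- symmetric saturated chain for rank `s` -/
def SC (s : ℕ) (C : Finset (Finset α)) : Prop :=
  IsChain (· ⊆ ·) (C : Set (Finset α)) ∧ ∃ k, 2 * k ≤ s ∧ C.image Finset.card = Finset.Icc k (s - k)

omit [DecidableEq α] in
theorem chain_eq_of_card {C : Finset (Finset α)} (hC : IsChain (· ⊆ ·) (C : Set (Finset α)))
    {A B : Finset α} (hA : A ∈ C) (hB : B ∈ C) (h : A.card = B.card) : A = B := by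
  rcases hC.total hA hB with h1 | h1
  · exact Finset.eq_of_subset_of_card_le h1 h.ge
  · exact (Finset.eq_of_subset_of_card_le h1 h.le).symm

omit [DecidableEq α] in
theorem chain_subset_of_card {C : Finset (Finset α)} (hC : IsChain (· ⊆ ·) (C : Set (Finset α)))
    {A B : Finset α} (hA : A ∈ C) (hB : B ∈ C) (h : A.card ≤ B.card) : A ⊆ B := by
  rcases hC.total hA hB with h1 | h1
  · exact h1
  · exact (Finset.eq_of_subset_of_card_le h1 h).ge

theorem scd (S : Finset α) : ∃ 𝒟 : Finset (Finset (Finset α)),
    (∀ C ∈ 𝒟, SC S.card C ∧ ∀ A ∈ C, A ⊆ S) ∧ (∀ A ⊆ S, ∃ C ∈ 𝒟, A ∈ C) ∧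
    (∀ A, ∀ C ∈ 𝒟, ∀ C' ∈ 𝒟, A ∈ C → A ∈ C' → C = C') := by
  induction S using Finset.induction_on with
  | empty =>
    refine ⟨{{∅}}, ?_, ?_, ?_⟩
    · intro C hC
      rw [Finset.mem_singleton] at hC
      subst hC
      refine ⟨⟨by simp, 0, by simp, by simp⟩, by simp⟩
    · intro A hA
      exact ⟨{∅}, by simp, by simpa using hA⟩
    · intro A C hC C' hC' _ _
      rw [Finset.mem_singleton] at hC hC'
      rw [hC, hC']
  | insert x S hx ih =>
    obtain ⟨𝒟, h1, h2, h3⟩ := ih
    -- top of a chain
    have htop : ∀ C ∈ 𝒟, ∃ T ∈ C, ∀ A ∈ C, A ⊆ T := by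
      intro C hC
      obtain ⟨⟨hch, k, hk, him⟩, hsub⟩ := h1 C hC
      have : S.card - k ∈ C.image Finset.card := by
        rw [him, Finset.mem_Icc]; omega
      obtain ⟨T, hT, hTc⟩ := Finset.mem_image.1 this
      refine ⟨T, hT, fun A hA => chain_subset_of_card hch hA hT ?_⟩
      have : A.card ∈ C.image Finset.card := Finset.mem_image_of_mem _ hA
      rw [him, Finset.mem_Icc] at this
      omega
    choose! T hT hTtop using htop
    have hxS : ∀ C ∈ 𝒟, ∀ A ∈ C, x ∉ A := fun C hC A hA hxA => hx ((h1 C hC).2 A hA hxA)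
    let C1 : Finset (Finset α) → Finset (Finset α) := fun C => insert (insert x (T C)) C
    let C2 : Finset (Finset α) → Finset (Finset α) := fun C => (C.erase (T C)).image (insert x)
    refine ⟨𝒟.image C1 ∪ (𝒟.image C2).filter (fun C => C.Nonempty), ?_, ?_, ?_⟩
    · intro E hE
      rw [Finset.mem_union, Finset.mem_image, Finset.mem_filter, Finset.mem_image] at hE
      rcases hE with ⟨C, hC, rfl⟩ | ⟨⟨C, hC, rfl⟩, hne⟩
      · obtain ⟨⟨hch, k, hk, him⟩, hsub⟩ := h1 C hC
        have hTS : (T C).card = S.card - k := by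
          have a1 : (T C).card ∈ C.image Finset.card := Finset.mem_image_of_mem _ (hT C hC)
          have a2 : S.card - k ∈ C.image Finset.card := by rw [him, Finset.mem_Icc]; omega
          obtain ⟨B, hB, hBc⟩ := Finset.mem_image.1 a2
          have a3 := Finset.card_le_card (hTtop C hC B hB)
          rw [him, Finset.mem_Icc] at a1
          omega
        refine ⟨⟨?_, k, ?_, ?_⟩, ?_⟩
        · simp only [C1, Finset.coe_insert]
          refine hch.insert ?_
          intro B hB _
          right
          exact (hTtop C hC B hB).trans (Finset.subset_insert _ _)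
        · rw [Finset.card_insert_of_notMem hx]; omega
        · simp only [C1]
          rw [Finset.image_insert, him, Finset.card_insert_of_notMem hx,
            Finset.card_insert_of_notMem (hxS C hC _ (hT C hC)), hTS]
          ext j
          simp only [Finset.mem_insert, Finset.mem_Icc]
          omega
        · intro A hA
          simp only [C1, Finset.mem_insert] at hA
          rcases hA with rfl | hA
          · exact Finset.insert_subset_insert _ (hsub _ (hT C hC))
          · exact (hsub A hA).trans (Finset.subset_insert _ _)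
      · obtain ⟨⟨hch, k, hk, him⟩, hsub⟩ := h1 C hC
        have hTS : (T C).card = S.card - k := by
          have a1 : (T C).card ∈ C.image Finset.card := Finset.mem_image_of_mem _ (hT C hC)
          have a2 : S.card - k ∈ C.image Finset.card := by rw [him, Finset.mem_Icc]; omega
          obtain ⟨B, hB, hBc⟩ := Finset.mem_image.1 a2
          have a3 := Finset.card_le_card (hTtop C hC B hB)
          rw [him, Finset.mem_Icc] at a1
          omega
        obtain ⟨B0, hB0⟩ := hne
        simp only [C2, Finset.mem_image, Finset.mem_erase] at hB0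
        obtain ⟨A0, ⟨hA0T, hA0⟩, _⟩ := hB0
        have hlt : ∀ A ∈ C, A ≠ T C → A.card < (T C).card := by
          intro A hA hne
          exact Finset.card_lt_card (Finset.ssubset_iff_subset_ne.2 ⟨hTtop C hC A hA, hne⟩)
        have hk1 : 2 * k + 1 ≤ S.card := by
          have a1 : A0.card ∈ C.image Finset.card := Finset.mem_image_of_mem _ hA0
          rw [him, Finset.mem_Icc] at a1
          have := hlt A0 hA0 hA0T
          omega
        refine ⟨⟨?_, k + 1, ?_, ?_⟩, ?_⟩
        · intro A hA B hB _
          simp only [C2, Finset.coe_image, Set.mem_image, Finset.mem_coe, Finset.mem_erase] at hA hB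
          obtain ⟨A', ⟨_, hA'⟩, rfl⟩ := hA
          obtain ⟨B', ⟨_, hB'⟩, rfl⟩ := hB
          rcases hch.total hA' hB' with h | h
          · left; exact Finset.insert_subset_insert _ h
          · right; exact Finset.insert_subset_insert _ h
        · rw [Finset.card_insert_of_notMem hx]; omega
        · simp only [C2]
          rw [Finset.card_insert_of_notMem hx]
          ext j
          simp only [Finset.mem_image, Finset.mem_erase, Finset.mem_Icc]
          constructor
          · rintro ⟨_, ⟨A, ⟨hAT, hA⟩, rfl⟩, rfl⟩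
            have a1 : A.card ∈ C.image Finset.card := Finset.mem_image_of_mem _ hA
            rw [him, Finset.mem_Icc] at a1
            have := hlt A hA hAT
            rw [Finset.card_insert_of_notMem (hxS C hC A hA)]
            omega
          · rintro ⟨hj1, hj2⟩
            have : j - 1 ∈ C.image Finset.card := by
              rw [him, Finset.mem_Icc]; omega
            obtain ⟨A, hA, hAc⟩ := Finset.mem_image.1 this
            refine ⟨insert x A, ⟨A, ⟨?_, hA⟩, rfl⟩, ?_⟩
            · rintro rfl; omega
            · rw [Finset.card_insert_of_notMem (hxS C hC A hA)]; omega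
        · intro A hA
          simp only [C2, Finset.mem_image, Finset.mem_erase] at hA
          obtain ⟨A', ⟨_, hA'⟩, rfl⟩ := hA
          exact Finset.insert_subset_insert _ (hsub _ hA')
    · intro A hA
      by_cases hxA : x ∈ A
      · have hA' : A.erase x ⊆ S := by
          intro y hy
          rw [Finset.mem_erase] at hy
          exact (Finset.mem_insert.1 (hA hy.2)).resolve_left hy.1
        obtain ⟨C, hC, hAC⟩ := h2 _ hA'
        by_cases hAT : A.erase x = T C
        · refine ⟨C1 C, Finset.mem_union_left _ (Finset.mem_image_of_mem _ hC), ?_⟩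
          simp only [C1, Finset.mem_insert]
          left
          rw [← hAT, Finset.insert_erase hxA]
        · have hmem : A ∈ C2 C := by
            simp only [C2, Finset.mem_image, Finset.mem_erase]
            exact ⟨A.erase x, ⟨hAT, hAC⟩, Finset.insert_erase hxA⟩
          exact ⟨C2 C, Finset.mem_union_right _ (Finset.mem_filter.2
            ⟨Finset.mem_image_of_mem _ hC, ⟨A, hmem⟩⟩), hmem⟩
      · have hA' : A ⊆ S := fun y hy =>
          (Finset.mem_insert.1 (hA hy)).resolve_left (fun h => hxA (h ▸ hy))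
        obtain ⟨C, hC, hAC⟩ := h2 _ hA'
        exact ⟨C1 C, Finset.mem_union_left _ (Finset.mem_image_of_mem _ hC),
          Finset.mem_insert_of_mem hAC⟩
    · -- uniqueness: recover the old chain
      have key : ∀ A, ∀ E ∈ 𝒟.image C1 ∪ (𝒟.image C2).filter (fun C => C.Nonempty), A ∈ E →
          ∃ C ∈ 𝒟, A.erase x ∈ C ∧
            ((x ∈ A ∧ A.erase x ≠ T C ∧ E = C2 C) ∨ (x ∈ A ∧ A.erase x = T C ∧ E = C1 C) ∨
              (x ∉ A ∧ E = C1 C)) := by
        intro A E hE hAE
        rw [Finset.mem_union, Finset.mem_image, Finset.mem_filter, Finset.mem_image] at hE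
        rcases hE with ⟨C, hC, rfl⟩ | ⟨⟨C, hC, rfl⟩, _⟩
        · simp only [C1, Finset.mem_insert] at hAE
          rcases hAE with rfl | hAC
          · refine ⟨C, hC, ?_, Or.inr (Or.inl ⟨Finset.mem_insert_self _ _, ?_, rfl⟩)⟩
            · rw [Finset.erase_insert (hxS C hC _ (hT C hC))]; exact hT C hC
            · rw [Finset.erase_insert (hxS C hC _ (hT C hC))]
          · have hxA := hxS C hC A hAC
            refine ⟨C, hC, ?_, Or.inr (Or.inr ⟨hxA, rfl⟩)⟩
            rw [Finset.erase_eq_of_notMem hxA]; exact hAC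
        · simp only [C2, Finset.mem_image, Finset.mem_erase] at hAE
          obtain ⟨A', ⟨hA'T, hA'⟩, rfl⟩ := hAE
          have hxA' := hxS C hC A' hA'
          refine ⟨C, hC, ?_, Or.inl ⟨Finset.mem_insert_self _ _, ?_, rfl⟩⟩
          · rw [Finset.erase_insert hxA']; exact hA'
          · rw [Finset.erase_insert hxA']; exact hA'T
      intro A E hE E' hE' hAE hAE'
      obtain ⟨C, hC, hAC, hh⟩ := key A E hE hAE
      obtain ⟨C', hC', hAC', hh'⟩ := key A E' hE' hAE'
      have hCC := h3 _ C hC C' hC' hAC hAC'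
      subst hCC
      rcases hh with ⟨a, b, c⟩ | ⟨a, b, c⟩ | ⟨a, c⟩ <;> rcases hh' with ⟨a', b', c'⟩ | ⟨a', b', c'⟩ | ⟨a', c'⟩
      · rw [c, c']
      · exact absurd b' b
      · exact absurd a a'
      · exact absurd b b'
      · rw [c, c']
      · exact absurd a a'
      · exact absurd a' a
      · exact absurd a' a
      · rw [c, c']

/-- every power set `2^S` is covered by `choose |S| (|S|/2)` chains -/
theorem exists_chain_cover (S : Finset α) : ∃ f : Fin (Nat.choose S.card (S.card / 2)) → Finset (Finset α),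
    (∀ i, IsChain (· ⊆ ·) (f i : Set (Finset α))) ∧ ∀ A ⊆ S, ∃ i, A ∈ f i := by
  obtain ⟨𝒟, h1, h2, h3⟩ := scd S
  -- each chain contains a set of middle size
  have hmid : ∀ C ∈ 𝒟, ∃ A ∈ C, A.card = S.card / 2 := by
    intro C hC
    obtain ⟨⟨hch, k, hk, him⟩, hsub⟩ := h1 C hC
    have : S.card / 2 ∈ C.image Finset.card := by rw [him, Finset.mem_Icc]; omega
    exact Finset.mem_image.1 this
  choose! m hm hmc using hmid
  have hcard : 𝒟.card ≤ Nat.choose S.card (S.card / 2) := by
    rw [← Finset.card_powersetCard]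
    refine Finset.card_le_card_of_injOn m ?_ ?_
    · intro C hC
      rw [Finset.mem_coe, Finset.mem_powersetCard]
      exact ⟨(h1 C hC).2 _ (hm C hC), hmc C hC⟩
    · intro C hC C' hC' h
      exact h3 (m C) C hC C' hC' (hm C hC) (by rw [h]; exact hm C' hC')
  -- enumerate
  have hne : 𝒟.Nonempty := by
    obtain ⟨C, hC, _⟩ := h2 ∅ (Finset.empty_subset _)
    exact ⟨C, hC⟩
  obtain ⟨C0, hC0⟩ := hne
  let e := 𝒟.equivFin
  refine ⟨fun i => if h : i.1 < 𝒟.card then (e.symm ⟨i.1, h⟩ : Finset (Finset α)) else C0, ?_, ?_⟩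
  · intro i
    by_cases h : i.1 < 𝒟.card
    · simp only [h, dite_true]
      exact (h1 _ (e.symm ⟨i.1, h⟩).2).1.1
    · simp only [h, dite_false]
      exact (h1 _ hC0).1.1
  · intro A hA
    obtain ⟨C, hC, hAC⟩ := h2 A hA
    refine ⟨⟨(e ⟨C, hC⟩).1, lt_of_lt_of_le (e ⟨C, hC⟩).2 hcard⟩, ?_⟩
    simp only [(e ⟨C, hC⟩).2, dite_true]
    simpa using hAC

end Pool.Agent.Lib_helper70.Chains
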