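import Mathlib
import Pool.Agent.Lib_helper70.ChainSCD

set_option autoImplicit false

namespace Pool.Agent.Lib_helper70.Chains

open Finset

section Construction

variable {r : ℕ} (ℓ : Fin r → ℕ)

/-- ground set -/
abbrev Gd : Type := Σ i : Fin r, Fin (ℓ i)

/-- positions with collapsed letter equal to the index of the part -/
def Sp (i : Fin r) (u : Fin (ℓ i) → Fin r) : Finset (Fin (ℓ i)) := Finset.univ.filter (fun x => u x = i)

/-- the chains covering the power set of `Sp` -/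
noncomputable def gch (i : Fin r) (u : Fin (ℓ i) → Fin r) :
    Fin (Nat.choose (Sp ℓ i u).card ((Sp ℓ i u).card / 2)) → Finset (Finset (Fin (ℓ i))) :=
  Classical.choose (exists_chain_cover (Sp ℓ i u))

theorem gch_chain (i : Fin r) (u : Fin (ℓ i) → Fin r) (k) :
    IsChain (· ⊆ ·) (gch ℓ i u k : Set (Finset (Fin (ℓ i)))) :=
  (Classical.choose_spec (exists_chain_cover (Sp ℓ i u))).1 k

theorem gch_cover (i : Fin r) (u : Fin (ℓ i) → Fin r) (A : Finset (Fin (ℓ i))) (hA : A ⊆ Sp ℓ i u) :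
    ∃ k, A ∈ gch ℓ i u k :=
  (Classical.choose_spec (exists_chain_cover (Sp ℓ i u))).2 A hA

/-- index type of the chains in the cover -/
abbrev Om : Type := ∀ i : Fin r, Σ u : Fin (ℓ i) → Fin r,
  Fin (Nat.choose (Sp ℓ i u).card ((Sp ℓ i u).card / 2))

variable {ℓ}

/-- collapsed letter -/
def vv (ω : Om ℓ) (z : Gd ℓ) : Fin r := (ω z.1).1 z.2

/-- the set `F_j` -/
def setF (ω : Om ℓ) (j : Fin r) (d : Finset (Fin (ℓ j))) : Finset (Gd ℓ) :=
  Finset.univ.filter (fun z => (z.1 = j ∧ vv ω z = j ∧ z ∈ d.image (Sigma.mk j)) ∨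
    (vv ω z < z.1 ∧ vv ω z ≤ j) ∨ (z.1 ≤ vv ω z ∧ vv ω z < j))

theorem mem_setF (ω : Om ℓ) (j : Fin r) (d : Finset (Fin (ℓ j))) (z : Gd ℓ) :
    z ∈ setF ω j d ↔ ((z.1 = j ∧ vv ω z = j ∧ z ∈ d.image (Sigma.mk j)) ∨
    (vv ω z < z.1 ∧ vv ω z ≤ j) ∨ (z.1 ≤ vv ω z ∧ vv ω z < j)) := by
  simp only [setF, Finset.mem_filter, Finset.mem_univ, true_and]

theorem setF_mono (ω : Om ℓ) (j : Fin r) {d d' : Finset (Fin (ℓ j))} (h : d ⊆ d') :
    setF ω j d ⊆ setF ω j d' := by
  intro z hz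
  simp only [setF, Finset.mem_filter, Finset.mem_univ, true_and] at hz ⊢
  rcases hz with ⟨h1, h2, h3⟩ | h3
  · exact Or.inl ⟨h1, h2, Finset.image_subset_image h h3⟩
  · exact Or.inr h3

theorem setF_lt (ω : Om ℓ) {j j' : Fin r} (hj : j < j') (d : Finset (Fin (ℓ j)))
    (d' : Finset (Fin (ℓ j'))) : setF ω j d ⊆ setF ω j' d' := by
  intro z hz
  simp only [setF, Finset.mem_filter, Finset.mem_univ, true_and] at hz ⊢
  rcases hz with ⟨h1, h2, h3⟩ | ⟨h1, h2⟩ | ⟨h1, h2⟩
  · right; right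
    rw [h1, h2]
    exact ⟨le_refl _, hj⟩
  · right; left
    exact ⟨h1, h2.trans hj.le⟩
  · right; right
    exact ⟨h1, h2.trans hj⟩

/-- the chain with index `ω` -/
noncomputable def chn (ω : Om ℓ) : Finset (Finset (Gd ℓ)) :=
  Finset.univ.biUnion (fun j => (gch ℓ j (ω j).1 (ω j).2).image (setF ω j))

theorem chn_chain (ω : Om ℓ) : IsChain (· ⊆ ·) (chn ω : Set (Finset (Gd ℓ))) := by
  intro A hA B hB _
  simp only [chn, Finset.coe_biUnion, Set.mem_iUnion, Finset.mem_coe, Finset.mem_univ,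
    Finset.mem_image, exists_prop, true_and] at hA hB
  obtain ⟨j, d, hd, rfl⟩ := hA
  obtain ⟨j', d', hd', rfl⟩ := hB
  rcases lt_trichotomy j j' with h | h | h
  · left; exact setF_lt ω h d d'
  · subst h
    rcases (gch_chain ℓ j (ω j).1 (ω j).2).total hd hd' with h | h
    · left; exact setF_mono ω j h
    · right; exact setF_mono ω j h
  · right; exact setF_lt ω h d' d

theorem chn_cover (D : Finset (Finset (Gd ℓ))) (hD : D.card = r)
    (hch : IsChain (· ⊆ ·) (D : Set (Finset (Gd ℓ)))) : ∃ ω : Om ℓ, D ⊆ chn ω := by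
  classical
  let w : Gd ℓ → ℕ := fun z => (D.filter (fun G => z ∉ G)).card
  have hw : ∀ z, w z ≤ r := fun z => by
    rw [← hD]; exact Finset.card_le_card (Finset.filter_subset _ _)
  let v : Gd ℓ → Fin r := fun z => if h : w z ≤ z.1.1 then ⟨w z, lt_of_le_of_lt h z.1.2⟩
    else ⟨w z - 1, by have := hw z; have := z.1.2; omega⟩
  have hv1 : ∀ z, w z ≤ z.1.1 → (v z).1 = w z := fun z h => by simp only [v, h, dite_true]
  have hv2 : ∀ z, ¬ w z ≤ z.1.1 → (v z).1 = w z - 1 := fun z h => by simp only [v, h, dite_false]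
  let dd : ∀ i : Fin r, Finset (Fin (ℓ i)) := fun i => Finset.univ.filter (fun x => w ⟨i, x⟩ = i.1)
  have hdd : ∀ i, dd i ⊆ Sp ℓ i (fun x => v ⟨i, x⟩) := by
    intro i x hx
    simp only [dd, Finset.mem_filter, Finset.mem_univ, true_and] at hx
    simp only [Sp, Finset.mem_filter, Finset.mem_univ, true_and]
    apply Fin.ext
    rw [hv1 _ (by simp only; omega)]
    exact hx
  choose k hk using fun i => gch_cover ℓ i (fun x => v ⟨i, x⟩) (dd i) (hdd i)
  refine ⟨fun i => ⟨fun x => v ⟨i, x⟩, k i⟩, ?_⟩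
  intro G hG
  let jn : ℕ := (D.filter (fun G' => G' ⊂ G)).card
  have hjn : jn < r := by
    rw [← hD]
    apply Finset.card_lt_card
    refine Finset.ssubset_iff_subset_ne.2 ⟨Finset.filter_subset _ _, ?_⟩
    intro h
    have : G ∈ D.filter (fun G' => G' ⊂ G) := by rw [h]; exact hG
    exact (Finset.mem_filter.1 this).2.ne rfl
  have hmem : ∀ z, z ∈ G ↔ w z ≤ jn := by
    intro z
    constructor
    · intro hz
      apply Finset.card_le_card
      intro G' hG'
      rw [Finset.mem_filter] at hG' ⊢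
      refine ⟨hG'.1, ?_⟩
      rcases hch.total hG'.1 hG with h | h
      · exact Finset.ssubset_iff_subset_ne.2 ⟨h, fun h' => hG'.2 (h' ▸ hz)⟩
      · exact absurd (h hz) hG'.2
    · intro hz
      by_contra hzG
      have : jn + 1 ≤ w z := by
        have h1 : G ∉ D.filter (fun G' => G' ⊂ G) := fun h => (Finset.mem_filter.1 h).2.ne rfl
        have h2 : (insert G (D.filter (fun G' => G' ⊂ G))).card = jn + 1 :=
          Finset.card_insert_of_notMem h1
        rw [← h2]
        apply Finset.card_le_card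
        intro G' hG'
        rw [Finset.mem_insert, Finset.mem_filter] at hG'
        rw [Finset.mem_filter]
        rcases hG' with rfl | ⟨h3, h4⟩
        · exact ⟨hG, hzG⟩
        · exact ⟨h3, fun h5 => hzG (h4.1 h5)⟩
      omega
  let j : Fin r := ⟨jn, hjn⟩
  simp only [chn, Finset.mem_biUnion, Finset.mem_univ, Finset.mem_image, true_and]
  refine ⟨j, dd j, hk j, ?_⟩
  ext z
  rw [hmem z, mem_setF]
  have hvv : vv (fun i => ⟨fun x => v ⟨i, x⟩, k i⟩ : Om ℓ) z = v z := rfl
  have hdz : z ∈ (dd j).image (Sigma.mk j) ↔ z.1 = j ∧ w z = jn := by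
    rw [Finset.mem_image]
    constructor
    · rintro ⟨x, hx, rfl⟩
      refine ⟨rfl, ?_⟩
      simpa only [dd, Finset.mem_filter, Finset.mem_univ, true_and] using hx
    · rintro ⟨h1, h2⟩
      obtain ⟨i, x⟩ := z
      simp only at h1
      subst h1
      refine ⟨x, ?_, rfl⟩
      simpa only [dd, Finset.mem_filter, Finset.mem_univ, true_and] using h2
  rw [hvv, hdz]
  simp only [Fin.ext_iff, Fin.lt_def, Fin.le_def]
  have hj : (j : ℕ) = jn := rfl
  rw [hj]
  by_cases h : w z ≤ z.1.1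
  · rw [hv1 z h]; omega
  · rw [hv2 z h]; omega

end Construction

end Pool.Agent.Lib_helper70.Chains
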