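import Mathlib
import Pool.Agent.Lib_helper70.ChainCover
import Pool.Agent.Lib_helper70.ChainDefs

set_option autoImplicit false

namespace Pool.Agent.Lib_helper70.Chains

open Finset

theorem card_Om {r : ℕ} (ℓ : Fin r → ℕ) :
    Fintype.card (Om ℓ) = ∏ i, ∑ u : Fin (ℓ i) → Fin r,
      Nat.choose (Sp ℓ i u).card ((Sp ℓ i u).card / 2) := by
  rw [Fintype.card_pi]
  refine Finset.prod_congr rfl fun i _ => ?_
  rw [Fintype.card_sigma]
  simp only [Fintype.card_fin]

theorem coverNumber_le {n r : ℕ} (ℓ : Fin r → ℕ) (h : ∑ i, ℓ i = n) :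
    coverNumber n r ≤ ∏ i, ∑ u : Fin (ℓ i) → Fin r,
      Nat.choose (Sp ℓ i u).card ((Sp ℓ i u).card / 2) := by
  classical
  have hc : Fintype.card (Gd ℓ) = n := by
    rw [Fintype.card_sigma]
    simp only [Fintype.card_fin]
    exact h
  let e : Gd ℓ ≃ Fin n := Fintype.equivFinOfCardEq hc
  let F : Finset (Finset (Finset (Fin n))) :=
    Finset.univ.image (fun ω : Om ℓ => (chn ω).image (Finset.map e.toEmbedding))
  have hF : IsChainCover n r F := by
    constructor
    · intro C hC
      simp only [F, Finset.mem_image, Finset.mem_univ, true_and] at hC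
      obtain ⟨ω, rfl⟩ := hC
      intro A hA B hB _
      simp only [Finset.coe_image, Set.mem_image, Finset.mem_coe] at hA hB
      obtain ⟨A', hA', rfl⟩ := hA
      obtain ⟨B', hB', rfl⟩ := hB
      rcases (chn_chain ω).total hA' hB' with h | h
      · left; exact Finset.map_subset_map.2 h
      · right; exact Finset.map_subset_map.2 h
    · intro D hD hch
      have hinj : Function.Injective (Finset.map e.symm.toEmbedding) := Finset.map_injective _
      obtain ⟨ω, hω⟩ := chn_cover (ℓ := ℓ) (D.image (Finset.map e.symm.toEmbedding))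
        (by rw [Finset.card_image_of_injective _ hinj, hD])
        (by
          intro A hA B hB _
          simp only [Finset.coe_image, Set.mem_image, Finset.mem_coe] at hA hB
          obtain ⟨A', hA', rfl⟩ := hA
          obtain ⟨B', hB', rfl⟩ := hB
          rcases hch.total hA' hB' with h | h
          · left; exact Finset.map_subset_map.2 h
          · right; exact Finset.map_subset_map.2 h)
      refine ⟨(chn ω).image (Finset.map e.toEmbedding), ?_, ?_⟩
      · simp only [F, Finset.mem_image, Finset.mem_univ, true_and]
        exact ⟨ω, rfl⟩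
      · intro G hG
        rw [Finset.mem_image]
        refine ⟨G.map e.symm.toEmbedding, hω (Finset.mem_image_of_mem _ hG), ?_⟩
        rw [Finset.map_map]
        ext x
        simp
  calc coverNumber n r ≤ F.card := Nat.sInf_le ⟨F, hF, rfl⟩
    _ ≤ (Finset.univ : Finset (Om ℓ)).card := Finset.card_image_le
    _ = _ := by rw [Finset.card_univ, card_Om]

end Pool.Agent.Lib_helper70.Chains
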