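import Mathlib

set_option autoImplicit false

namespace Pool.Agent.Lib_helper70.Chains

open Finset Real

/-- even case of the sharp bound for the middle binomial coefficient -/
theorem central_even (k : ℕ) :
    ((2 * k).choose k : ℝ) ^ 2 * (2 * k + 1) ^ 2 * π ≤ 16 ^ k * 2 * (2 * k + 2) := by
  have h := Wallis.le_W k
  rw [Wallis.W_eq_factorial_ratio] at h
  have hf : ((2 * k).factorial : ℝ) = ((2 * k).choose k : ℝ) * (k.factorial : ℝ) ^ 2 := by
    have := Nat.choose_mul_factorial_mul_factorial (show k ≤ 2 * k by omega)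
    rw [show 2 * k - k = k by omega] at this
    rw [← this]; push_cast; ring
  rw [hf] at h
  have hk : (0 : ℝ) < (k.factorial : ℝ) := by exact_mod_cast k.factorial_pos
  have hc : (0 : ℝ) < ((2 * k).choose k : ℝ) := by
    exact_mod_cast Nat.choose_pos (by omega)
  have h2 : (2 : ℝ) ^ (4 * k) * (k.factorial : ℝ) ^ 4 /
      ((((2 * k).choose k : ℝ) * (k.factorial : ℝ) ^ 2) ^ 2 * (2 * k + 1)) =
      16 ^ k / (((2 * k).choose k : ℝ) ^ 2 * (2 * k + 1)) := by
    rw [pow_mul]; norm_num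
    field_simp
  rw [h2, div_mul_div_comm, div_le_div_iff₀ (by positivity) (by positivity)] at h
  nlinarith [h]

theorem central_bound (s : ℕ) :
    ((s.choose (s / 2) : ℕ) : ℝ) ^ 2 * (s + 1) ^ 2 * π ≤ 4 ^ s * 2 * (s + 2) := by
  rcases Nat.even_or_odd' s with ⟨k, rfl | rfl⟩
  · rw [show 2 * k / 2 = k by omega]
    have := central_even k
    rw [pow_mul]; norm_num
    exact this
  · rw [show (2 * k + 1) / 2 = k by omega]
    have h := central_even (k + 1)
    have h1 : ((2 * (k + 1)).choose (k + 1) : ℝ) = 2 * ((2 * k + 1).choose k : ℝ) := by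
      have h2 : (2 * (k + 1)).choose (k + 1) = (2 * k + 1).choose k + (2 * k + 1).choose (k + 1) := by
        rw [show 2 * (k + 1) = 2 * k + 1 + 1 by ring, Nat.choose_succ_succ]
      have h3 : (2 * k + 1).choose (k + 1) = (2 * k + 1).choose k := Nat.choose_symm_half k
      rw [h2, h3]; push_cast; ring
    rw [h1] at h
    push_cast at h ⊢
    set c : ℝ := ((2 * k + 1).choose k : ℝ) with hc
    have hk : (0 : ℝ) ≤ k := Nat.cast_nonneg k
    have e1 : (4 : ℝ) ^ (2 * k + 1) = 4 * 16 ^ k := by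
      rw [pow_succ, pow_mul]; norm_num; ring
    rw [e1]
    rw [pow_succ (16 : ℝ) k] at h
    set P : ℝ := (16 : ℝ) ^ k with hP
    have hP0 : 0 < P := by positivity
    have h5 : c ^ 2 * π * (2 * k + 3) ^ 2 ≤ P * 16 * (k + 2) := by nlinarith [h]
    have h6 : c ^ 2 * π ≤ P * 16 * (k + 2) / (2 * k + 3) ^ 2 := by
      rw [le_div_iff₀ (by positivity)]; exact h5
    have h7 : P * 16 * (k + 2) / (2 * k + 3) ^ 2 * (2 * k + 2) ^ 2 ≤ 4 * P * 2 * (2 * k + 3) := by
      rw [div_mul_eq_mul_div, div_le_iff₀ (by positivity)]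
      have : 16 * ((k : ℝ) + 2) * (2 * k + 2) ^ 2 ≤ 4 * 2 * (2 * k + 3) * (2 * k + 3) ^ 2 := by
        nlinarith [hk, mul_nonneg hk hk, mul_nonneg hk (mul_nonneg hk hk)]
      nlinarith [mul_le_mul_of_nonneg_left this hP0.le]
    have h8 : c ^ 2 * π * (2 * k + 2) ^ 2 ≤ P * 16 * (k + 2) / (2 * k + 3) ^ 2 * (2 * k + 2) ^ 2 :=
      mul_le_mul_of_nonneg_right h6 (by positivity)
    calc c ^ 2 * (2 * k + 1 + 1) ^ 2 * π = c ^ 2 * π * (2 * k + 2) ^ 2 := by ring
      _ ≤ _ := h8
      _ ≤ _ := h7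
      _ = 4 * P * 2 * (2 * k + 1 + 2) := by ring

theorem card_words {r m : ℕ} (i : Fin r) (A : Finset (Fin m)) :
    ((Finset.univ.filter (fun u : Fin m → Fin r => Finset.univ.filter (fun x => u x = i) = A)).card : ℝ)
      = ((r : ℝ) - 1) ^ (m - A.card) := by
  classical
  have h : Finset.univ.filter (fun u : Fin m → Fin r => Finset.univ.filter (fun x => u x = i) = A) =
      Fintype.piFinset (fun x => if x ∈ A then ({i} : Finset (Fin r)) else Finset.univ.erase i) := by
    ext u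
    simp only [Finset.mem_filter, Finset.mem_univ, true_and, Fintype.mem_piFinset, Finset.ext_iff]
    constructor
    · intro h x
      have := h x
      by_cases hx : x ∈ A
      · simp only [hx, if_true, iff_true] at this ⊢; exact Finset.mem_singleton.2 this
      · simp only [hx, if_false, iff_false] at this ⊢
        exact Finset.mem_erase.2 ⟨this, Finset.mem_univ _⟩
    · intro h x
      have := h x
      by_cases hx : x ∈ A
      · simp only [hx, if_true, iff_true] at this ⊢; exact Finset.mem_singleton.1 this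
      · simp only [hx, if_false, iff_false] at this ⊢
        exact (Finset.mem_erase.1 this).1
  rw [h, Fintype.card_piFinset]
  have hr : 1 ≤ r := by have := i.2; omega
  have h2 : ∀ x : Fin m, (if x ∈ A then ({i} : Finset (Fin r)) else Finset.univ.erase i).card =
      if x ∈ A then 1 else r - 1 := by
    intro x
    by_cases hx : x ∈ A
    · simp [hx]
    · simp [hx, Finset.card_erase_of_mem]
  rw [Finset.prod_congr rfl (fun x _ => h2 x), Finset.prod_ite]
  simp only [Finset.prod_const_one, one_mul, Finset.prod_const]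
  have h3 : (Finset.univ.filter (fun x => x ∉ A)).card = m - A.card := by
    rw [Finset.filter_not, Finset.card_sdiff_of_subset (Finset.filter_subset _ _)]
    simp
  rw [h3]
  push_cast
  rw [Nat.cast_sub hr]
  simp

theorem sum_words {r m : ℕ} (i : Fin r) (f : ℕ → ℝ) :
    ∑ u : Fin m → Fin r, f ((Finset.univ.filter (fun x => u x = i)).card) =
      ∑ s ∈ Finset.range (m + 1), (m.choose s : ℝ) * (((r : ℝ) - 1) ^ (m - s) * f s) := by
  classical
  rw [← Finset.sum_fiberwise (Finset.univ : Finset (Fin m → Fin r))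
    (fun u => Finset.univ.filter (fun x => u x = i))]
  have h1 : ∀ A : Finset (Fin m),
      ∑ u ∈ Finset.univ.filter (fun u : Fin m → Fin r => Finset.univ.filter (fun x => u x = i) = A),
        f ((Finset.univ.filter (fun x => u x = i)).card) = ((r : ℝ) - 1) ^ (m - A.card) * f A.card := by
    intro A
    rw [← card_words i A, ← nsmul_eq_mul, ← Finset.sum_const]
    refine Finset.sum_congr rfl fun u hu => ?_
    rw [(Finset.mem_filter.1 hu).2]
  rw [Finset.sum_congr rfl (fun A _ => h1 A)]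
  have := Finset.sum_powerset_apply_card (fun s => ((r : ℝ) - 1) ^ (m - s) * f s)
    (x := (Finset.univ : Finset (Fin m)))
  rw [Finset.powerset_univ, Finset.card_univ, Fintype.card_fin] at this
  rw [this]
  refine Finset.sum_congr rfl fun s _ => ?_
  rw [nsmul_eq_mul]

theorem S1 (m : ℕ) (q : ℝ) :
    ∑ s ∈ Finset.range (m + 1), (m.choose s : ℝ) * (q ^ (m - s) * 2 ^ s) = (q + 2) ^ m := by
  rw [add_comm q 2, add_pow]
  refine Finset.sum_congr rfl fun s _ => ?_
  ring

theorem S2 (m : ℕ) (q : ℝ) (hq : 0 ≤ q) :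
    ∑ s ∈ Finset.range (m + 1), (m.choose s : ℝ) * (q ^ (m - s) * (2 ^ s / (s + 1))) ≤
      (q + 2) ^ (m + 1) / (2 * (m + 1)) := by
  have h : (q + 2) ^ (m + 1) / (2 * (m + 1)) =
      ∑ s ∈ Finset.range (m + 1 + 1),
        ((m + 1).choose s : ℝ) * (q ^ (m + 1 - s) * 2 ^ s) / (2 * (m + 1)) := by
    rw [← Finset.sum_div, S1]
  rw [h, Finset.sum_range_succ' _ (m + 1)]
  have h0 : 0 ≤ ((m + 1).choose 0 : ℝ) * (q ^ (m + 1 - 0) * 2 ^ 0) / (2 * (m + 1)) := by positivity
  refine le_trans (le_of_eq ?_) (le_add_of_nonneg_right h0)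
  refine Finset.sum_congr rfl fun s _ => ?_
  have h1 : ((m + 1).choose (s + 1) : ℝ) * (s + 1) = (m + 1) * (m.choose s : ℝ) := by
    have := Nat.add_one_mul_choose_eq m s
    exact_mod_cast this.symm
  rw [show m + 1 - (s + 1) = m - s by omega, pow_succ]
  field_simp
  linear_combination (-(q ^ (m - s))) * h1

theorem S3 (m : ℕ) (q : ℝ) (hq : 0 ≤ q) :
    ∑ s ∈ Finset.range (m + 1), (m.choose s : ℝ) * (q ^ (m - s) * (2 ^ s / ((s + 1) * (s + 2)))) ≤
      (q + 2) ^ (m + 2) / (4 * (m + 1) * (m + 2)) := by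
  have h : (q + 2) ^ (m + 2) / (4 * (m + 1) * (m + 2)) =
      (q + 2) ^ (m + 1 + 1) / (2 * ((m + 1 : ℕ) + 1)) / (2 * (m + 1)) := by
    rw [div_div]; push_cast; congr 1; ring
  have h' := S2 (m + 1) q hq
  rw [h]
  have hm : (0 : ℝ) < 2 * (m + 1) := by positivity
  refine le_trans ?_ (div_le_div_of_nonneg_right h' hm.le)
  rw [Finset.sum_div, Finset.sum_range_succ' _ (m + 1)]
  have h0 : 0 ≤ ((m + 1).choose 0 : ℝ) * (q ^ (m + 1 - 0) * (2 ^ 0 / ((0 : ℕ) + 1))) / (2 * (m + 1)) := by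
    positivity
  refine le_trans (le_of_eq ?_) (le_add_of_nonneg_right h0)
  refine Finset.sum_congr rfl fun s _ => ?_
  have h1 : ((m + 1).choose (s + 1) : ℝ) * (s + 1) = (m + 1) * (m.choose s : ℝ) := by
    have := Nat.add_one_mul_choose_eq m s
    exact_mod_cast this.symm
  rw [show m + 1 - (s + 1) = m - s by omega, pow_succ]
  push_cast
  rw [show (s : ℝ) + 1 + 1 = s + 2 by ring]
  field_simp
  linear_combination (-(q ^ (m - s))) * h1

/-- main estimate for one part -/
theorem cm_bound {r m : ℕ} (i : Fin r) :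
    (∑ u : Fin m → Fin r, (Nat.choose (Finset.univ.filter (fun x => u x = i)).card
      ((Finset.univ.filter (fun x => u x = i)).card / 2) : ℝ)) ^ 2 ≤
      ((r : ℝ) + 1) ^ (2 * m + 1) / (π * (m + 1)) * (1 + (r + 1) / (m + 2)) := by
  have hr : 1 ≤ r := by have := i.2; omega
  have hq : (0 : ℝ) ≤ (r : ℝ) - 1 := by
    have : (1 : ℝ) ≤ r := by exact_mod_cast hr
    linarith
  rw [sum_words i (fun s => (Nat.choose s (s / 2) : ℝ))]
  set q : ℝ := (r : ℝ) - 1 with hqdef
  have hq2 : (r : ℝ) + 1 = q + 2 := by rw [hqdef]; ring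
  rw [hq2]
  have hCS : (∑ s ∈ Finset.range (m + 1), (m.choose s : ℝ) * (q ^ (m - s) * (Nat.choose s (s / 2) : ℝ))) ^ 2
      ≤ (∑ s ∈ Finset.range (m + 1), (m.choose s : ℝ) * (q ^ (m - s) * 2 ^ s)) *
        (∑ s ∈ Finset.range (m + 1), (m.choose s : ℝ) * (q ^ (m - s) * ((Nat.choose s (s / 2) : ℝ) ^ 2 / 2 ^ s))) := by
    apply Finset.sum_sq_le_sum_mul_sum_of_sq_le_mul
    · intro s _; positivity
    · intro s _; positivity
    · intro s _
      refine le_of_eq ?_
      field_simp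
  have hS1 := S1 m q
  have hS2 := S2 m q hq
  have hS3 := S3 m q hq
  have hpi := Real.pi_pos
  have hb : ∑ s ∈ Finset.range (m + 1), (m.choose s : ℝ) * (q ^ (m - s) * ((Nat.choose s (s / 2) : ℝ) ^ 2 / 2 ^ s))
      ≤ (2 / π) * ((q + 2) ^ (m + 1) / (2 * (m + 1))) + (4 / π) * ((q + 2) ^ (m + 2) / (4 * (m + 1) * (m + 2))) := by
    refine le_trans ?_ (add_le_add (mul_le_mul_of_nonneg_left hS2 (by positivity))
      (mul_le_mul_of_nonneg_left hS3 (by positivity)))
    rw [Finset.mul_sum, Finset.mul_sum, ← Finset.sum_add_distrib]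
    refine Finset.sum_le_sum fun s _ => ?_
    have hc := central_bound s
    have hk : (Nat.choose s (s / 2) : ℝ) ^ 2 / 2 ^ s ≤
        2 / π * (2 ^ s / (s + 1)) + 4 / π * (2 ^ s / ((s + 1) * (s + 2))) := by
      have e1 : 2 / π * (2 ^ s / ((s : ℝ) + 1)) + 4 / π * (2 ^ s / ((s + 1) * (s + 2))) =
          2 ^ s * (2 * (s + 4)) / (π * (s + 1) * (s + 2)) := by
        field_simp
        ring
      rw [e1, div_le_div_iff₀ (by positivity) (by positivity)]
      have h4 : (2 : ℝ) ^ s * 2 ^ s = 4 ^ s := by rw [← mul_pow]; norm_num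
      have hs : (0 : ℝ) ≤ s := Nat.cast_nonneg s
      have h5 : (Nat.choose s (s / 2) : ℝ) ^ 2 * (s + 1) ^ 2 * π * (s + 2) ≤
          (4 ^ s * 2 * (s + 2)) * (s + 2) := mul_le_mul_of_nonneg_right hc (by positivity)
      have h6 : (4 : ℝ) ^ s * 2 * (s + 2) * (s + 2) ≤ 4 ^ s * (2 * (s + 4)) * (s + 1) := by
        have : ((s : ℝ) + 2) * (s + 2) ≤ (s + 4) * (s + 1) := by nlinarith
        have h44 : (0 : ℝ) < 4 ^ s := by positivity
        nlinarith [mul_le_mul_of_nonneg_left this h44.le]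
      have h7 : (0 : ℝ) < s + 1 := by positivity
      have h8 : ((Nat.choose s (s / 2) : ℝ) ^ 2 * (π * (s + 1) * (s + 2))) * (s + 1) ≤
          (4 ^ s * (2 * (s + 4))) * (s + 1) := by nlinarith [h5, h6]
      have h9 := le_of_mul_le_mul_right h8 h7
      calc (Nat.choose s (s / 2) : ℝ) ^ 2 * (π * (s + 1) * (s + 2)) ≤ 4 ^ s * (2 * (s + 4)) := h9
        _ = _ := by rw [← h4]; ring
    have hw : (0 : ℝ) ≤ (m.choose s : ℝ) * q ^ (m - s) := by positivity
    calc (m.choose s : ℝ) * (q ^ (m - s) * ((Nat.choose s (s / 2) : ℝ) ^ 2 / 2 ^ s)) =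
        ((m.choose s : ℝ) * q ^ (m - s)) * ((Nat.choose s (s / 2) : ℝ) ^ 2 / 2 ^ s) := by ring
      _ ≤ ((m.choose s : ℝ) * q ^ (m - s)) *
        (2 / π * (2 ^ s / (s + 1)) + 4 / π * (2 ^ s / ((s + 1) * (s + 2)))) :=
          mul_le_mul_of_nonneg_left hk hw
      _ = _ := by ring
  rw [hS1] at hCS
  refine hCS.trans ((mul_le_mul_of_nonneg_left hb (by positivity)).trans (le_of_eq ?_))
  field_simp
  ring

end Pool.Agent.Lib_helper70.Chains
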