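import Mathlib
import Pool.Agent.Lib_helper70.ChainBound
import Pool.Agent.Lib_helper70.ChainEst

set_option autoImplicit false

namespace Pool.Agent.Lib_helper70.Chains

open Finset Real Filter Topology

/-- sum of the balanced vector -/
theorem sum_bal (n R : ℕ) (hR : 0 < R) :
    ∑ i : Fin R, (n / R + if (i : ℕ) < n % R then 1 else 0) = n := by
  rw [Finset.sum_add_distrib, Finset.sum_const, Finset.card_univ, Fintype.card_fin, smul_eq_mul,
    Finset.sum_boole]
  have h : (Finset.univ.filter (fun i : Fin R => (i : ℕ) < n % R)).card = n % R := by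
    have := Fin.card_filter_val_lt (n := R) (m := n % R)
    rw [this]
    exact min_eq_right (Nat.mod_lt _ hR).le
  rw [h]
  exact Nat.div_add_mod n R

theorem upper_bound (n r : ℕ) (hr : 1 ≤ r) :
    (coverNumber n r : ℝ) ^ 2 ≤ ((r : ℝ) + 1) ^ (2 * n) *
      (r * (r + 1) / (π * (n + 1)) * (1 + r * (r + 1) / (n + 1))) ^ r := by
  let ℓ : Fin r → ℕ := fun i => n / r + if (i : ℕ) < n % r then 1 else 0
  have hsum : ∑ i, ℓ i = n := sum_bal n r hr
  have h1 := coverNumber_le ℓ hsum
  have h2 : (coverNumber n r : ℝ) ≤ ∏ i, ∑ u : Fin (ℓ i) → Fin r,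
      (Nat.choose (Sp ℓ i u).card ((Sp ℓ i u).card / 2) : ℝ) := by
    exact_mod_cast h1
  have hpi := Real.pi_pos
  have hr0 : (0 : ℝ) < r := by exact_mod_cast hr
  have h3 : (∏ i, ∑ u : Fin (ℓ i) → Fin r,
      (Nat.choose (Sp ℓ i u).card ((Sp ℓ i u).card / 2) : ℝ)) ^ 2 ≤
      ∏ i : Fin r, (((r : ℝ) + 1) ^ (2 * ℓ i) *
        (r * (r + 1) / (π * (n + 1)) * (1 + r * (r + 1) / (n + 1)))) := by
    rw [← Finset.prod_pow]
    refine Finset.prod_le_prod (fun i _ => by positivity) fun i _ => ?_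
    have h4 := cm_bound (m := ℓ i) i
    refine h4.trans ?_
    have h5 : (n : ℝ) + 1 ≤ r * (ℓ i + 1) := by
      have : n + 1 ≤ r * (ℓ i + 1) := by
        have h6 := Nat.div_add_mod n r
        have h7 := Nat.mod_lt n hr
        have h8 : n / r ≤ ℓ i := Nat.le_add_right _ _
        have h9 : r * (n / r) ≤ r * ℓ i := Nat.mul_le_mul_left _ h8
        rw [mul_add, mul_one]; omega
      exact_mod_cast this
    have hn : (0 : ℝ) < n + 1 := by positivity
    have h6 : ((r : ℝ) + 1) / (π * (ℓ i + 1)) ≤ r * (r + 1) / (π * (n + 1)) := by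
      rw [div_le_div_iff₀ (by positivity) (by positivity)]
      nlinarith [mul_le_mul_of_nonneg_left h5 (show 0 ≤ ((r : ℝ) + 1) * π by positivity)]
    have h7 : ((r : ℝ) + 1) / (ℓ i + 2) ≤ r * (r + 1) / (n + 1) := by
      rw [div_le_div_iff₀ (by positivity) (by positivity)]
      nlinarith [mul_le_mul_of_nonneg_left h5 (show 0 ≤ ((r : ℝ) + 1) by positivity)]
    calc ((r : ℝ) + 1) ^ (2 * ℓ i + 1) / (π * (ℓ i + 1)) * (1 + (r + 1) / (ℓ i + 2))
        = ((r : ℝ) + 1) ^ (2 * ℓ i) * (((r : ℝ) + 1) / (π * (ℓ i + 1)) * (1 + (r + 1) / (ℓ i + 2))) := by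
          rw [pow_succ]; ring
      _ ≤ _ := by
          apply mul_le_mul_of_nonneg_left _ (by positivity)
          exact mul_le_mul h6 (by linarith) (by positivity) (by positivity)
  have h4 : (coverNumber n r : ℝ) ^ 2 ≤ _ := (pow_le_pow_left₀ (by positivity) h2 2).trans h3
  rw [Finset.prod_mul_distrib, Finset.prod_pow_eq_pow_sum, ← Finset.mul_sum, hsum,
    Finset.prod_const, Finset.card_univ, Fintype.card_fin] at h4
  exact h4

theorem stirlingSeq_anti {a b : ℕ} (ha : 1 ≤ a) (hab : a ≤ b) :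
    Stirling.stirlingSeq b ≤ Stirling.stirlingSeq a := by
  have := Stirling.stirlingSeq'_antitone (show a - 1 ≤ b - 1 by omega)
  simp only [Function.comp, Nat.succ_eq_add_one] at this
  rwa [show a - 1 + 1 = a by omega, show b - 1 + 1 = b by omega] at this

theorem fact_sq {a : ℕ} (ha : 1 ≤ a) : ((a.factorial : ℕ) : ℝ) ^ 2 =
    Stirling.stirlingSeq a ^ 2 * (2 * a) * ((a / exp 1) ^ a) ^ 2 := by
  have ha' : (0 : ℝ) < a := by exact_mod_cast ha
  unfold Stirling.stirlingSeq
  rw [div_pow, mul_pow, Real.sq_sqrt (by positivity)]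
  field_simp

theorem lower_bound (n r : ℕ) (hn : r + 1 ≤ n) :
    0 < maxMultinomial n r ∧
    ((r : ℝ) + 1) ^ (2 * n) * (π * (2 * n) / ((Stirling.stirlingSeq (n / (r + 1)) ^ 2 *
      (2 * (n + (r + 1)) / (r + 1))) ^ (r + 1) * exp (2 * (r + 1) ^ 2 / n))) ≤
      (maxMultinomial n r : ℝ) ^ 2 := by
  set q : ℕ := n / (r + 1) with hq
  set t : ℕ := n % (r + 1) with ht
  have hq1 : 1 ≤ q := (Nat.one_le_div_iff (by omega)).2 hn
  have hqt : (r + 1) * q + t = n := Nat.div_add_mod n (r + 1)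
  have htr : t < r + 1 := Nat.mod_lt _ (by omega)
  let a : Fin (r + 1) → ℕ := fun i => q + if (i : ℕ) < t then 1 else 0
  have hsum : ∑ i, a i = n := sum_bal n (r + 1) (by omega)
  have ha1 : ∀ i, 1 ≤ a i := fun i => hq1.trans (Nat.le_add_right _ _)
  have hgap : IsGapVector n r a := ⟨hsum, fun i _ _ => ha1 i⟩
  have hle : Nat.multinomial Finset.univ a ≤ maxMultinomial n r := by
    refine le_csSup ⟨n.factorial, ?_⟩ ⟨a, hgap, rfl⟩
    rintro k ⟨b, hb, rfl⟩
    unfold Nat.multinomial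
    rw [hb.1]
    exact Nat.div_le_self _ _
  have hspec : (∏ i, (a i).factorial) * Nat.multinomial Finset.univ a = n.factorial := by
    have := Nat.multinomial_spec Finset.univ a
    rw [this, hsum]
  have hpos : 0 < Nat.multinomial Finset.univ a := Nat.multinomial_pos _ _
  refine ⟨lt_of_lt_of_le hpos hle, ?_⟩
  have hpi := Real.pi_pos
  have hn0 : (0 : ℝ) < n := by
    have : 0 < n := by omega
    exact_mod_cast this
  have hle' : ((Nat.multinomial Finset.univ a : ℕ) : ℝ) ^ 2 ≤ (maxMultinomial n r : ℝ) ^ 2 := by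
    apply pow_le_pow_left₀ (by positivity)
    exact_mod_cast hle
  refine le_trans ?_ hle'
  -- the upper bound for the product of factorials
  have hR : (0 : ℝ) < (r : ℝ) + 1 := by positivity
  have hst : 0 < Stirling.stirlingSeq q := by
    have := Stirling.stirlingSeq'_pos (q - 1)
    rwa [show q - 1 + 1 = q by omega] at this
  have hai : ∀ i, ((r : ℝ) + 1) * a i ≤ n + (r + 1) := by
    intro i
    have : (r + 1) * a i ≤ n + (r + 1) := by
      have h1 : a i ≤ q + 1 := by
        simp only [a]; split_ifs <;> omega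
      calc (r + 1) * a i ≤ (r + 1) * (q + 1) := Nat.mul_le_mul_left _ h1
        _ = (r + 1) * q + (r + 1) := by ring
        _ ≤ _ := by omega
    exact_mod_cast this
  have hprod : (((∏ i, (a i).factorial : ℕ)) : ℝ) ^ 2 ≤
      (Stirling.stirlingSeq q ^ 2 * (2 * (n + (r + 1)) / (r + 1))) ^ (r + 1) *
        (((n / (r + 1)) / exp 1) ^ n * exp ((r + 1) ^ 2 / n)) ^ 2 := by
    push_cast
    rw [← Finset.prod_pow]
    have h1 : ∀ i ∈ (Finset.univ : Finset (Fin (r + 1))), (((a i).factorial : ℕ) : ℝ) ^ 2 ≤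
        (Stirling.stirlingSeq q ^ 2 * (2 * (n + (r + 1)) / (r + 1))) *
          (((n / (r + 1)) / exp 1) ^ (a i) * exp (a i * ((r + 1) * a i - n) / n)) ^ 2 := by
      intro i _
      rw [fact_sq (ha1 i)]
      have hst2 : 0 ≤ Stirling.stirlingSeq (a i) := by
        have := Stirling.stirlingSeq'_pos (a i - 1)
        have h := ha1 i
        rw [show a i - 1 + 1 = a i by omega] at this
        exact this.le
      have h2 : Stirling.stirlingSeq (a i) ^ 2 ≤ Stirling.stirlingSeq q ^ 2 :=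
        pow_le_pow_left₀ hst2 (stirlingSeq_anti hq1 (Nat.le_add_right _ _)) 2
      have h3 : (2 * (a i : ℝ)) ≤ 2 * (n + (r + 1)) / (r + 1) := by
        rw [le_div_iff₀ hR]; nlinarith [hai i]
      have h4 : ((a i : ℝ) / exp 1) ^ (a i) ≤
          ((n / (r + 1)) / exp 1) ^ (a i) * exp (a i * ((r + 1) * a i - n) / n) := by
        have h5 : ((r : ℝ) + 1) * a i / n ≤ exp ((r + 1) * a i / n - 1) := by
          have := Real.add_one_le_exp (((r : ℝ) + 1) * a i / n - 1)
          linarith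
        have h6 : (a i : ℝ) / exp 1 ≤ ((n / (r + 1)) / exp 1) * exp ((r + 1) * a i / n - 1) := by
          have : (a i : ℝ) / exp 1 = ((n / (r + 1)) / exp 1) * (((r : ℝ) + 1) * a i / n) := by
            field_simp
          rw [this]
          exact mul_le_mul_of_nonneg_left h5 (by positivity)
        calc ((a i : ℝ) / exp 1) ^ (a i) ≤
            (((n / (r + 1)) / exp 1) * exp ((r + 1) * a i / n - 1)) ^ (a i) :=
              pow_le_pow_left₀ (by positivity) h6 _
          _ = _ := by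
              rw [mul_pow, ← Real.exp_nat_mul]
              congr 2
              field_simp
      calc Stirling.stirlingSeq (a i) ^ 2 * (2 * a i) * ((a i / exp 1) ^ (a i)) ^ 2
          ≤ Stirling.stirlingSeq q ^ 2 * (2 * (n + (r + 1)) / (r + 1)) *
            (((n / (r + 1)) / exp 1) ^ (a i) * exp (a i * ((r + 1) * a i - n) / n)) ^ 2 := by
            apply mul_le_mul (mul_le_mul h2 h3 (by positivity) (by positivity))
              (pow_le_pow_left₀ (by positivity) h4 2) (by positivity) (by positivity)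
        _ = _ := rfl
    refine (Finset.prod_le_prod (fun i _ => by positivity) h1).trans ?_
    rw [Finset.prod_mul_distrib, Finset.prod_const, Finset.card_univ, Fintype.card_fin,
      Finset.prod_pow, Finset.prod_mul_distrib, Finset.prod_pow_eq_pow_sum, hsum, ← Real.exp_sum]
    apply mul_le_mul_of_nonneg_left _ (by positivity)
    apply pow_le_pow_left₀ (by positivity)
    apply mul_le_mul_of_nonneg_left _ (by positivity)
    apply Real.exp_le_exp.2
    rw [← Finset.sum_div]
    apply div_le_div_of_nonneg_right _ hn0.le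
    -- sum of a i * (R a i - n)
    have hs1 : (∑ i, (a i : ℝ)) = n := by exact_mod_cast hsum
    have hs2 : (∑ i, (a i : ℝ) ^ 2) = (r + 1) * q ^ 2 + (2 * q + 1) * t := by
      have h7 : ∀ i : Fin (r + 1), (a i : ℝ) ^ 2 = q ^ 2 + (2 * q + 1) * (if (i : ℕ) < t then 1 else 0) := by
        intro i
        simp only [a]
        split_ifs
        · push_cast; ring
        · push_cast; ring
      rw [Finset.sum_congr rfl (fun i _ => h7 i), Finset.sum_add_distrib, Finset.sum_const,
        Finset.card_univ, Fintype.card_fin, ← Finset.mul_sum, Finset.sum_boole,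
        Fin.card_filter_val_lt, min_eq_right htr.le]
      simp
    have hnn : (n : ℝ) = (r + 1) * q + t := by
      rw [← hqt]; push_cast; ring
    have h8 : ∑ i, (a i : ℝ) * ((r + 1) * a i - n) = (r + 1) * (∑ i, (a i : ℝ) ^ 2) - n * ∑ i, (a i : ℝ) := by
      rw [Finset.mul_sum, Finset.mul_sum, ← Finset.sum_sub_distrib]
      refine Finset.sum_congr rfl fun i _ => ?_
      ring
    rw [h8, hs1, hs2]
    have ht0 : (0 : ℝ) ≤ t := Nat.cast_nonneg t
    have ht1 : (t : ℝ) ≤ r + 1 := by exact_mod_cast htr.le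
    have h9 : ((r : ℝ) + 1) * ((r + 1) * q ^ 2 + (2 * q + 1) * t) - n * n = t * (r + 1 - t) := by
      rw [hnn]; ring
    rw [h9]
    nlinarith
  have hst1 : π ≤ Stirling.stirlingSeq n ^ 2 := by
    have := Stirling.sqrt_pi_le_stirlingSeq (show n ≠ 0 by omega)
    calc π = (√π) ^ 2 := (Real.sq_sqrt hpi.le).symm
      _ ≤ _ := pow_le_pow_left₀ (Real.sqrt_nonneg _) this 2
  have hspec' : (((∏ i, (a i).factorial : ℕ)) : ℝ) ^ 2 * ((Nat.multinomial Finset.univ a : ℕ) : ℝ) ^ 2 =
      ((n.factorial : ℕ) : ℝ) ^ 2 := by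
    rw [← mul_pow]; exact_mod_cast congrArg (fun x : ℕ => (x : ℝ) ^ 2) hspec
  rw [fact_sq (show 1 ≤ n by omega)] at hspec'
  have hP : (0 : ℝ) < ((∏ i, (a i).factorial : ℕ) : ℝ) ^ 2 := by
    have : 0 < ∏ i, (a i).factorial := Finset.prod_pos fun i _ => Nat.factorial_pos _
    positivity
  have hM : ((Nat.multinomial Finset.univ a : ℕ) : ℝ) ^ 2 =
      Stirling.stirlingSeq n ^ 2 * (2 * n) * ((n / exp 1) ^ n) ^ 2 / ((∏ i, (a i).factorial : ℕ) : ℝ) ^ 2 := by
    rw [eq_div_iff hP.ne', ← hspec']; ring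
  rw [hM]
  have hD : (0 : ℝ) < (Stirling.stirlingSeq q ^ 2 * (2 * (n + (r + 1)) / (r + 1))) ^ (r + 1) := by
    positivity
  calc ((r : ℝ) + 1) ^ (2 * n) * (π * (2 * n) / ((Stirling.stirlingSeq q ^ 2 *
      (2 * (n + (r + 1)) / (r + 1))) ^ (r + 1) * exp (2 * (r + 1) ^ 2 / n)))
      = π * (2 * n) * ((n / exp 1) ^ n) ^ 2 / ((Stirling.stirlingSeq q ^ 2 * (2 * (n + (r + 1)) / (r + 1))) ^ (r + 1) *
        (((n / (r + 1)) / exp 1) ^ n * exp ((r + 1) ^ 2 / n)) ^ 2) := by
        have he : exp (2 * ((r : ℝ) + 1) ^ 2 / n) = exp ((r + 1) ^ 2 / n) ^ 2 := by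
          rw [← Real.exp_nat_mul]; congr 1; push_cast; ring
        rw [he, pow_mul' ((r : ℝ) + 1) 2 n]
        have hX : (0 : ℝ) < exp (((r : ℝ) + 1) ^ 2 / n) := Real.exp_pos _
        have h10 : (((n : ℝ) / (r + 1)) / exp 1) ^ n = ((n / exp 1) ^ n) / ((r + 1) ^ n) := by
          rw [← div_pow]; congr 1; field_simp
        rw [h10]
        have hY : (0 : ℝ) < ((n : ℝ) / exp 1) ^ n := by positivity
        have hZ : (0 : ℝ) < ((r : ℝ) + 1) ^ n := by positivity
        field_simp
    _ ≤ π * (2 * n) * ((n / exp 1) ^ n) ^ 2 / ((∏ i, (a i).factorial : ℕ) : ℝ) ^ 2 :=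
        div_le_div_of_nonneg_left (by positivity) hP hprod
    _ ≤ _ := by
        apply div_le_div_of_nonneg_right _ hP.le
        apply mul_le_mul_of_nonneg_right _ (by positivity)
        exact mul_le_mul_of_nonneg_right hst1 (by positivity)

end Pool.Agent.Lib_helper70.Chains
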