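import Mathlib
import Pool.Agent.Lib_helper70.ChainLower

set_option autoImplicit false

namespace Pool.Agent.Lib_helper70.Chains

open Finset Real Filter Topology

theorem tendsto_nat_div (R : ℕ) (hR : 0 < R) : Tendsto (fun n : ℕ => n / R) atTop atTop := by
  rw [tendsto_atTop]
  intro b
  filter_upwards [eventually_ge_atTop (b * R)] with n hn
  exact (Nat.le_div_iff_mul_le hR).2 hn

theorem tendsto_A (r : ℕ) :
    Tendsto (fun n : ℕ => (1 + (r : ℝ) * (r + 1) / ((n : ℝ) + 1)) ^ r *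
      (Stirling.stirlingSeq (n / (r + 1)) ^ 2 / π) ^ (r + 1) * exp (2 * (r + 1) ^ 2 / n) *
      (1 + (r : ℝ) / ((n : ℝ) + 1)) ^ r * (1 + ((r : ℝ) + 1) / n)) atTop (𝓝 1) := by
  have h1 : ∀ c : ℝ, Tendsto (fun n : ℕ => c / ((n : ℝ) + 1)) atTop (𝓝 0) := by
    intro c
    have := (tendsto_const_div_atTop_nhds_zero_nat c).comp (tendsto_add_atTop_nat 1)
    refine this.congr fun n => ?_
    simp only [Function.comp]
    push_cast
    rfl
  have h2 : Tendsto (fun n : ℕ => (1 + (r : ℝ) * (r + 1) / ((n : ℝ) + 1)) ^ r) atTop (𝓝 1) := by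
    have := ((h1 ((r : ℝ) * (r + 1))).const_add 1).pow r
    simpa using this
  have h3 : Tendsto (fun n : ℕ => (1 + (r : ℝ) / ((n : ℝ) + 1)) ^ r) atTop (𝓝 1) := by
    have := ((h1 (r : ℝ)).const_add 1).pow r
    simpa using this
  have h4 : Tendsto (fun n : ℕ => (1 + ((r : ℝ) + 1) / n)) atTop (𝓝 1) := by
    have := (tendsto_const_div_atTop_nhds_zero_nat ((r : ℝ) + 1)).const_add 1
    simpa using this
  have h5 : Tendsto (fun n : ℕ => exp (2 * ((r : ℝ) + 1) ^ 2 / n)) atTop (𝓝 1) := by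
    have := (Real.continuous_exp.tendsto 0).comp
      (tendsto_const_div_atTop_nhds_zero_nat (2 * ((r : ℝ) + 1) ^ 2))
    rw [Real.exp_zero] at this
    exact this
  have h6 : Tendsto (fun n : ℕ => (Stirling.stirlingSeq (n / (r + 1)) ^ 2 / π) ^ (r + 1)) atTop (𝓝 1) := by
    have := ((((Stirling.tendsto_stirlingSeq_sqrt_pi).comp (tendsto_nat_div (r + 1) (by omega))).pow 2).div_const π).pow (r + 1)
    rw [Real.sq_sqrt Real.pi_pos.le, div_self Real.pi_pos.ne', one_pow] at this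
    exact this
  have := (((h2.mul h6).mul h5).mul h3).mul h4
  simpa using this

/-- The asymptotic constant. -/
theorem cover_bound (r : ℕ) (hr : 1 ≤ r) (K : ℝ) (hK : √((2 * r) ^ r / (r + 1)) < K) :
    ∀ᶠ n : ℕ in atTop, 0 < maxMultinomial n r ∧
      (coverNumber n r : ℝ) ≤ K * (maxMultinomial n r : ℝ) := by
  have hr0 : (0 : ℝ) < r := by exact_mod_cast hr
  have hpi := Real.pi_pos
  set K0 : ℝ := (2 * r) ^ r / (r + 1) with hK0
  have hK0pos : 0 < K0 := by positivity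
  have hKpos : 0 < K := lt_of_le_of_lt (Real.sqrt_nonneg _) hK
  have hK2 : K0 < K ^ 2 := by
    calc K0 = √K0 ^ 2 := (Real.sq_sqrt hK0pos.le).symm
      _ < K ^ 2 := pow_lt_pow_left₀ hK (Real.sqrt_nonneg _) (by norm_num)
  have hA := (tendsto_A r).const_mul K0
  rw [mul_one] at hA
  have hev := hA.eventually (gt_mem_nhds hK2)
  filter_upwards [hev, eventually_ge_atTop (r + 1)] with n hn1 hn2
  obtain ⟨hpos, hlow⟩ := lower_bound n r hn2
  have hup := upper_bound n r hr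
  refine ⟨hpos, ?_⟩
  have hn0 : (0 : ℝ) < n := by
    have : 0 < n := by omega
    exact_mod_cast this
  have hst : 0 < Stirling.stirlingSeq (n / (r + 1)) := by
    have hq1 : 1 ≤ n / (r + 1) := (Nat.one_le_div_iff (by omega)).2 hn2
    have := Stirling.stirlingSeq'_pos (n / (r + 1) - 1)
    rwa [show n / (r + 1) - 1 + 1 = n / (r + 1) by omega] at this
  set st : ℝ := Stirling.stirlingSeq (n / (r + 1)) with hstdef
  have hLpos : (0 : ℝ) < π * (2 * n) / ((st ^ 2 *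
      (2 * (n + (r + 1)) / (r + 1))) ^ (r + 1) * exp (2 * (r + 1) ^ 2 / n)) := by positivity
  have hUL : ((r : ℝ) * (r + 1) / (π * (n + 1)) * (1 + r * (r + 1) / (n + 1))) ^ r =
      (π * (2 * n) / ((st ^ 2 * (2 * (n + (r + 1)) / (r + 1))) ^ (r + 1) * exp (2 * (r + 1) ^ 2 / n))) *
      (K0 * ((1 + (r : ℝ) * (r + 1) / ((n : ℝ) + 1)) ^ r *
      (st ^ 2 / π) ^ (r + 1) * exp (2 * (r + 1) ^ 2 / n) *
      (1 + (r : ℝ) / ((n : ℝ) + 1)) ^ r * (1 + ((r : ℝ) + 1) / n))) := by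
    have e1 : (1 + (r : ℝ) / ((n : ℝ) + 1)) = (n + (r + 1)) / (n + 1) := by field_simp; ring
    have e2 : (1 + ((r : ℝ) + 1) / n) = (n + (r + 1)) / n := by field_simp
    rw [e1, e2, hK0]
    generalize hE : exp (2 * ((r : ℝ) + 1) ^ 2 / n) = E
    have hE0 : 0 < E := by rw [← hE]; exact Real.exp_pos _
    generalize hB : (1 + (r : ℝ) * (r + 1) / ((n : ℝ) + 1)) = B
    have hR : (0 : ℝ) < r + 1 := by positivity
    simp only [mul_pow, div_pow]
    rw [pow_succ (2 : ℝ) r, pow_succ ((n : ℝ) + (r + 1)) r, pow_succ ((r : ℝ) + 1) r,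
      pow_succ π r, pow_succ (st ^ 2) r]
    field_simp
  rw [hUL] at hup
  have h2 : (coverNumber n r : ℝ) ^ 2 ≤ (K * (maxMultinomial n r : ℝ)) ^ 2 := by
    set L : ℝ := π * (2 * n) / ((st ^ 2 * (2 * (n + (r + 1)) / (r + 1))) ^ (r + 1) *
      exp (2 * (r + 1) ^ 2 / n)) with hL
    calc (coverNumber n r : ℝ) ^ 2 ≤ _ := hup
      _ ≤ ((r : ℝ) + 1) ^ (2 * n) * (L * K ^ 2) := by
          apply mul_le_mul_of_nonneg_left _ (by positivity)
          exact mul_le_mul_of_nonneg_left hn1.le hLpos.le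
      _ = (((r : ℝ) + 1) ^ (2 * n) * L) * K ^ 2 := by ring
      _ ≤ (maxMultinomial n r : ℝ) ^ 2 * K ^ 2 :=
          mul_le_mul_of_nonneg_right hlow (by positivity)
      _ = _ := by ring
  exact le_of_sq_le_sq h2 (by positivity)

end Pool.Agent.Lib_helper70.Chains
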